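import Mathlib
import Pool.Agent.BrE.Dens
import Pool.Agent.BrE.GenD

set_option autoImplicit false

/-!
# Very short windows between the squares of consecutive primes, for almost all primes
-/

namespace Pool.Agent.Results.MP_739ba1_nt.AlmostAllPrimes

open Pool.Agent.BrE

/-- for every value `s`, at least `k` integers `m` with `y < m < z` satisfy `f m ≠ s` -/
def Var (f : ℕ → ℂ) (y z k : ℝ) : Prop :=
  ∀ s : ℂ, k ≤ (Set.ncard {m : ℕ | y < m ∧ (m : ℝ) < z ∧ f m ≠ s} : ℝ)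

/-- `f` varies below each product `a b`, `p ≤ a ≤ b ≤ p'`, `b > p`, shifted by `D p` -/
def Good (f : ℕ → ℂ) (ε : ℝ) (D : ℕ → ℝ) (p p' : ℕ) : Prop :=
  ∀ a b : ℕ, p ≤ a → a ≤ b → b ≤ p' → p < b →
    Var f ((a : ℝ) * b - D p - (1 + √(D p)) * (p : ℝ) ^ ε) ((a : ℝ) * b - D p) ((p : ℝ) ^ (ε / 4))

/-- the number of primes `p ≤ N` such that `R p p'` fails, where `p'` is the prime after `p` -/
noncomputable def exceptions (N : ℝ) (R : ℕ → ℕ → Prop) : ℕ :=
  Set.ncard {p : ℕ | p.Prime ∧ (p : ℝ) ≤ N ∧ ∀ p' : ℕ, p'.Prime → p < p' →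
    (∀ l : ℕ, p < l → l < p' → ¬ l.Prime) → ¬ R p p'}

theorem pr_next (i l : ℕ) (h1 : pr i < l) (h2 : l < pr (i + 1)) : ¬ l.Prime := by
  intro hl
  have h3 : pr (Nat.count Nat.Prime l) = l := Nat.nth_count hl
  rw [← h3] at h1 h2
  have h4 := pr_strictMono.lt_iff_lt.mp h1
  have h5 := pr_strictMono.lt_iff_lt.mp h2
  omega

/-- Let `q ≥ 1` and `0 < ε ≤ 1`. There is `c > 0` such that for all large `N`, each nondecreasing
`D ≥ 0` with `D n ≤ 2 n`, and each completely multiplicative `f` whose values are `q`-th roots of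
unity and with `f r ≠ 1` for some `r` in `[1, N^c]`, all but at most `N^(1-c)` primes `p ≤ N` are
such that, with `p'` the next prime, for all integers `p ≤ a ≤ b ≤ p'` with `b > p` and every `s`
at least `p^(ε/4)` integers `m` in `(a b - D p - (1 + √(D p)) p^ε, a b - D p)` have `f m ≠ s`. -/
theorem result (q : ℕ) (hq : 1 ≤ q) (ε : ℝ) (hε : 0 < ε) (hε1 : ε ≤ 1) :
    ∃ c : ℝ, 0 < c ∧ ∃ N0 : ℝ, ∀ N : ℝ, N0 ≤ N →
      ∀ D : ℕ → ℝ, Monotone D → (∀ n, 0 ≤ D n ∧ D n ≤ 2 * n) →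
      ∀ f : ℕ → ℂ, (∀ n, 0 < n → f n ^ q = 1) →
        (∀ m n, 0 < m → 0 < n → f (m * n) = f m * f n) →
        (∃ r : ℕ, 1 ≤ r ∧ (r : ℝ) ≤ N ^ c ∧ f r ≠ 1) →
        (exceptions N (Good f ε D) : ℝ) ≤ N ^ (1 - c) := by
  classical
  obtain ⟨c, κ, hc, hc2, hκ, hκ8, N0, hN0, hfin⟩ := gen_fin q hq ε hε hε1
  obtain ⟨X0, hX0, hdens⟩ := dens q hq κ hκ hκ8
  set c' := min c (κ / 20) with hc'
  have hc'0 : 0 < c' := by positivity
  have hc'c : c' ≤ c := min_le_left _ _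
  have hc'κ : c' ≤ κ / 20 := min_le_right _ _
  refine ⟨c', hc'0, max N0 (X0 ^ (10 : ℝ)), fun N hN D hD hDb f hf1 hf2 hr => ?_⟩
  obtain ⟨r, hr1, hrN, hfr⟩ := hr
  have hf : RM q f := ⟨hf1, hf2⟩
  have hNN0 : N0 ≤ N := (le_max_left _ _).trans hN
  have hNX0 : X0 ^ (10 : ℝ) ≤ N := (le_max_right _ _).trans hN
  have hN1 : 1 ≤ N := hN0.trans hNN0
  have hX : X0 ≤ N ^ (1 / 10 : ℝ) := by
    calc X0 = (X0 ^ (10 : ℝ)) ^ (1 / 10 : ℝ) := by
          rw [← Real.rpow_mul (by linarith)]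
          norm_num
      _ ≤ _ := Real.rpow_le_rpow (by positivity) hNX0 (by norm_num)
  have hd : DensE f κ (N ^ (1 / 10 : ℝ)) := by
    apply hdens _ hX f hf r hr1 _ hfr
    rw [← Real.rpow_mul (by linarith)]
    refine hrN.trans (Real.rpow_le_rpow_of_exponent_le hN1 ?_)
    linarith
  set S : Finset ℕ := (Finset.range (⌊N⌋₊ + 1)).filter
    (fun i => (pr i : ℝ) ≤ N ∧ BadP f ε c D i) with hS
  have h1 := hfin N hNN0 f hf hd D hD hDb S (fun i hi => by
    rw [hS, Finset.mem_filter] at hi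
    exact hi.2)
  have h2 : {p : ℕ | p.Prime ∧ (p : ℝ) ≤ N ∧ ∀ p' : ℕ, p'.Prime → p < p' →
      (∀ l : ℕ, p < l → l < p' → ¬ l.Prime) → ¬ Good f ε D p p'} ⊆
      ((S.image pr : Finset ℕ) : Set ℕ) := by
    intro p hp
    obtain ⟨g1, g2, g3⟩ := hp
    obtain ⟨i, hi⟩ : ∃ i, pr i = p := ⟨Nat.count Nat.Prime p, Nat.nth_count g1⟩
    rw [Finset.mem_coe, Finset.mem_image]
    refine ⟨i, ?_, hi⟩
    rw [hS, Finset.mem_filter, Finset.mem_range]
    have hiN : (pr i : ℝ) ≤ N := by rw [hi]; exact g2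
    refine ⟨?_, hiN, ?_⟩
    · have e1 : (i : ℝ) ≤ N := by
        have e2 : (i : ℝ) ≤ pr i := by exact_mod_cast le_pr i
        linarith
      have e3 := Nat.le_floor e1
      omega
    · have g4 := g3 (pr (i + 1)) (pr_prime _) (by rw [← hi]; exact pr_strictMono (by omega))
        (by
          intro l hl1 hl2
          rw [← hi] at hl1
          exact pr_next i l hl1 hl2)
      by_contra hcon
      apply g4
      rw [← hi]
      rw [BadP, not_or] at hcon
      obtain ⟨k1, -⟩ := hcon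
      intro a b ha hab hb hpb s
      by_contra hs
      apply k1
      exact ⟨a, b, ha, hab, hb, hpb, s, not_le.mp hs⟩
  have h3 := Set.ncard_le_ncard h2 (Finset.finite_toSet _)
  rw [Set.ncard_coe_finset] at h3
  have h4 : (S.image pr).card ≤ S.card := Finset.card_image_le
  have h5 : (exceptions N (Good f ε D) : ℝ) ≤ S.card := by
    rw [exceptions]
    exact_mod_cast h3.trans h4
  refine h5.trans (h1.trans ?_)
  exact Real.rpow_le_rpow_of_exponent_le hN1 (by linarith)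

end Pool.Agent.Results.MP_739ba1_nt.AlmostAllPrimes
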