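import Mathlib
import Pool.Agent.RPS.Short

set_option autoImplicit false

/-!
# Almost primes of both parities between the squares of consecutive primes
-/

namespace Pool.Agent.Results.MP_739ba1_nt.AlmostPrimesBetweenPrimeSquares

open Pool.Agent.RPS Finset ArithmeticFunction

/-- `m` is a positive integer with at most `K` prime factors, counted with multiplicity, all of
them larger than `y` -/
def Almost (K : ℕ) (y : ℝ) (m : ℕ) : Prop :=
  0 < m ∧ cardFactors m ≤ K ∧ ∀ p : ℕ, p.Prime → p ∣ m → y < p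

theorem nth_succ_le (n : ℕ) : Nat.nth Nat.Prime (n + 1) ≤ 2 * Nat.nth Nat.Prime n := by
  obtain ⟨q, hq⟩ : ∃ q, q = Nat.nth Nat.Prime n := ⟨_, rfl⟩
  have hqp : q.Prime := by rw [hq]; exact Nat.prime_nth_prime n
  obtain ⟨r, hr1, hr2, hr3⟩ := Nat.exists_prime_lt_and_le_two_mul q hqp.ne_zero
  rw [← hq]
  refine le_trans ?_ hr3
  by_contra hcon
  push Not at hcon
  have h2 : Nat.nth Nat.Prime (Nat.count Nat.Prime r) = r := Nat.nth_count hr1
  have h3 : Nat.nth Nat.Prime n < Nat.nth Nat.Prime (Nat.count Nat.Prime r) := by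
    rw [h2]; rw [← hq]; exact hr2
  have h4 : Nat.nth Nat.Prime (Nat.count Nat.Prime r) < Nat.nth Nat.Prime (n + 1) := by
    rw [h2]; exact hcon
  have h5 := (Nat.nth_strictMono Nat.infinite_setOfPred_prime).lt_iff_lt.1 h3
  have h6 := (Nat.nth_strictMono Nat.infinite_setOfPred_prime).lt_iff_lt.1 h4
  omega

/-- the deduction: a property holding in all short intervals -/
theorem brocard {K : ℕ} {σ x1 : ℝ} (hσ : 0 < σ) (hσ1 : σ ≤ 1 / 4) (pr : ℕ → Prop)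
    [DecidablePred pr]
    (h : ∀ x ≥ x1, ∃ m : ℕ, x < m ∧ (m : ℝ) ≤ x + x ^ (1 / 2 - σ) ∧ Short.Almost K (x ^ σ) m ∧
      pr m) :
    ∃ n0 : ℕ, ∀ p ≥ n0, ∀ q : ℕ, p < q → q ≤ 2 * p →
      (∀ y : ℝ, (p : ℝ) ^ 2 ≤ y → y + (p : ℝ) ^ (1 - σ) ≤ (q : ℝ) ^ 2 →
        ∃ m : ℕ, y < m ∧ (m : ℝ) ≤ y + (p : ℝ) ^ (1 - σ) ∧ Almost K ((p : ℝ) ^ σ) m ∧ pr m) ∧
      ∃ S : Finset ℕ, (∀ m ∈ S, m ∈ Ioo (p ^ 2) (q ^ 2) ∧ Almost K ((p : ℝ) ^ σ) m ∧ pr m) ∧
        ((q : ℝ) - p) * (p : ℝ) ^ σ ≤ (S.card : ℝ) := by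
  classical
  obtain ⟨B, hB⟩ : ∃ B : ℝ, B = max 1 x1 + (8 : ℝ) ^ (1 / σ) := ⟨_, rfl⟩
  refine ⟨⌈B⌉₊, ?_⟩
  intro p hp q hpq hq2
  have hpB : B ≤ p := (Nat.le_ceil _).trans (by exact_mod_cast hp)
  have h80 : 0 < (8 : ℝ) ^ (1 / σ) := by positivity
  have hp1 : (1 : ℝ) < p := by
    have := le_max_left 1 x1
    linarith
  have hpx : x1 ≤ p := by
    have := le_max_right 1 x1
    linarith
  have hp0 : (0 : ℝ) < p := by linarith
  have hp8 : 8 ≤ (p : ℝ) ^ σ := by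
    calc (8 : ℝ) = ((8 : ℝ) ^ (1 / σ)) ^ σ := by
          rw [← Real.rpow_mul (by norm_num)]
          have : 1 / σ * σ = 1 := by field_simp
          rw [this, Real.rpow_one]
      _ ≤ (p : ℝ) ^ σ := by
          apply Real.rpow_le_rpow (by positivity) _ hσ.le
          have := (zero_le_one.trans (le_max_left 1 x1))
          linarith
  obtain ⟨s, hs⟩ : ∃ s : ℝ, s = 2 * (p : ℝ) ^ (1 - 2 * σ) := ⟨_, rfl⟩
  have hs0 : 0 < s := by rw [hs]; positivity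
  -- `p ^ (1 - σ) = p ^ σ * p ^ (1 - 2 σ)`
  have hpow1 : (p : ℝ) ^ (1 - σ) = (p : ℝ) ^ σ * (p : ℝ) ^ (1 - 2 * σ) := by
    rw [← Real.rpow_add hp0]; congr 1; ring
  have hpow2 : (p : ℝ) = (p : ℝ) ^ σ * (p : ℝ) ^ σ * (p : ℝ) ^ (1 - 2 * σ) := by
    rw [← Real.rpow_add hp0, ← Real.rpow_add hp0]
    have : σ + σ + (1 - 2 * σ) = 1 := by ring
    rw [this, Real.rpow_one]
  have hss : s ≤ (p : ℝ) ^ (1 - σ) := by
    rw [hs, hpow1]
    have : (0 : ℝ) ≤ (p : ℝ) ^ (1 - 2 * σ) := by positivity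
    nlinarith
  have key : ∀ x : ℝ, (p : ℝ) ^ 2 ≤ x → x ≤ (q : ℝ) ^ 2 →
      ∃ m : ℕ, x < m ∧ (m : ℝ) ≤ x + s ∧ (Almost K ((p : ℝ) ^ σ) m ∧ pr m) := by
    intro x hx1 hx2
    have hpx2 : (p : ℝ) ≤ x := by nlinarith
    have hx0 : 0 < x := by linarith
    obtain ⟨m, a1, a2, a3, a4⟩ := h x (hpx.trans hpx2)
    refine ⟨m, a1, a2.trans ?_, ⟨a3.1, a3.2.1, ?_⟩, a4⟩
    · have b1 : x ≤ (2 * (p : ℝ)) ^ 2 := by
        refine hx2.trans ?_
        have : (q : ℝ) ≤ 2 * p := by exact_mod_cast hq2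
        gcongr
      have b2 : x ^ (1 / 2 - σ) ≤ ((2 * (p : ℝ)) ^ 2) ^ (1 / 2 - σ) :=
        Real.rpow_le_rpow hx0.le b1 (by linarith)
      have b3 : ((2 * (p : ℝ)) ^ 2) ^ (1 / 2 - σ) = (2 * (p : ℝ)) ^ (1 - 2 * σ) := by
        rw [← Real.rpow_natCast, ← Real.rpow_mul (by positivity)]
        congr 1; push_cast; ring
      have b4 : (2 * (p : ℝ)) ^ (1 - 2 * σ) ≤ s := by
        rw [Real.mul_rpow (by norm_num) hp0.le, hs]
        have : (2 : ℝ) ^ (1 - 2 * σ) ≤ (2 : ℝ) ^ (1 : ℝ) :=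
          Real.rpow_le_rpow_of_exponent_le (by norm_num) (by linarith)
        rw [Real.rpow_one] at this
        gcongr
      linarith
    · intro r hr hrm
      refine lt_of_le_of_lt ?_ (a3.2.2 r hr hrm)
      exact Real.rpow_le_rpow hp0.le hpx2 hσ.le
  refine ⟨?_, ?_⟩
  · intro y hy1 hy2
    have hpos : 0 < (p : ℝ) ^ (1 - σ) := by positivity
    obtain ⟨m, a1, a2, a3, a4⟩ := key y hy1 (by linarith)
    exact ⟨m, a1, a2.trans (by linarith), a3, a4⟩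
  · obtain ⟨N, hN⟩ : ∃ N, N = ⌈((q : ℝ) - p) * (p : ℝ) ^ σ⌉₊ := ⟨_, rfl⟩
    have hqp1 : (1 : ℝ) ≤ (q : ℝ) - p := by
      have : (p : ℝ) + 1 ≤ q := by exact_mod_cast hpq
      linarith
    have hNle : (N : ℝ) ≤ 2 * (((q : ℝ) - p) * (p : ℝ) ^ σ) := by
      have h1 : (0 : ℝ) ≤ ((q : ℝ) - p) * (p : ℝ) ^ σ := by positivity
      have h2 : (N : ℝ) < ((q : ℝ) - p) * (p : ℝ) ^ σ + 1 := by
        rw [hN]; exact Nat.ceil_lt_add_one h1
      nlinarith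
    have hNs : (N : ℝ) * s < ((q ^ 2 : ℕ) : ℝ) - ((p ^ 2 : ℕ) : ℝ) := by
      push_cast
      have e1 : (N : ℝ) * s ≤ 2 * (((q : ℝ) - p) * (p : ℝ) ^ σ) * s := by gcongr
      have e2 : 2 * (((q : ℝ) - p) * (p : ℝ) ^ σ) * s = 4 * ((q : ℝ) - p) * (p : ℝ) ^ (1 - σ) := by
        rw [hs, hpow1]; ring
      have e3 : 4 * (p : ℝ) ^ (1 - σ) ≤ p := by
        nth_rewrite 2 [hpow2]
        rw [hpow1]
        have : (0 : ℝ) ≤ (p : ℝ) ^ σ * (p : ℝ) ^ (1 - 2 * σ) := by positivity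
        nlinarith
      have e4 : 4 * ((q : ℝ) - p) * (p : ℝ) ^ (1 - σ) ≤ ((q : ℝ) - p) * p := by
        calc 4 * ((q : ℝ) - p) * (p : ℝ) ^ (1 - σ) = ((q : ℝ) - p) * (4 * (p : ℝ) ^ (1 - σ)) := by
              ring
          _ ≤ _ := by gcongr
      have e5 : ((q : ℝ) - p) * p < (q : ℝ) ^ 2 - (p : ℝ) ^ 2 := by nlinarith
      linarith
    have hc := Short.count (pr := fun m => Almost K ((p : ℝ) ^ σ) m ∧ pr m) hs0 hNs
      (fun x hx1 hx2 => key x (by push_cast at hx1; exact hx1) (by push_cast at hx2; exact hx2))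
    refine ⟨_, ?_, le_trans (Nat.le_ceil _) (by rw [← hN]; exact_mod_cast hc)⟩
    intro m hm
    rw [mem_filter] at hm
    exact ⟨hm.1, hm.2.1, hm.2.2⟩

open Classical in
/-- the integers strictly between `a ^ 2` and `b ^ 2` with the property `pr` -/
noncomputable def between (a b : ℕ) (pr : ℕ → Prop) : Finset ℕ :=
  (Ioo (a ^ 2) (b ^ 2)).filter pr

theorem card_le_between {a b : ℕ} {pr : ℕ → Prop} {S : Finset ℕ}
    (h : ∀ m ∈ S, m ∈ Ioo (a ^ 2) (b ^ 2) ∧ pr m) : (S.card : ℝ) ≤ ((between a b pr).card : ℝ) := by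
  have : S.card ≤ (between a b pr).card := by
    apply card_le_card
    intro m hm
    classical
    unfold between
    rw [mem_filter]
    exact h m hm
  exact_mod_cast this

/-- There are `K` and `σ > 0` such that for all large `n`, with `p < q` the consecutive primes of
index `n` and `n + 1`: every interval `(y, y + p ^ (1 - σ)]` inside `[p ^ 2, q ^ 2]` contains an
integer with an odd number, and an integer with an even number, of prime factors, the number being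
at most `K` and the prime factors all larger than `p ^ σ`; and strictly between `p ^ 2` and `q ^ 2`
there are at least `(q - p) * p ^ σ` such integers of either parity. -/
theorem result : ∃ (K : ℕ) (σ : ℝ), 0 < σ ∧ ∃ n0 : ℕ, ∀ n ≥ n0, ∀ p q : ℕ,
    p = Nat.nth Nat.Prime n → q = Nat.nth Nat.Prime (n + 1) →
    (∀ y : ℝ, (p : ℝ) ^ 2 ≤ y → y + (p : ℝ) ^ (1 - σ) ≤ (q : ℝ) ^ 2 →
      (∃ m : ℕ, y < m ∧ (m : ℝ) ≤ y + (p : ℝ) ^ (1 - σ) ∧ Almost K ((p : ℝ) ^ σ) m ∧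
        Odd (cardFactors m)) ∧
      (∃ m : ℕ, y < m ∧ (m : ℝ) ≤ y + (p : ℝ) ^ (1 - σ) ∧ Almost K ((p : ℝ) ^ σ) m ∧
        Even (cardFactors m))) ∧
    ((q : ℝ) - p) * (p : ℝ) ^ σ ≤
      ((between p q (fun m => Almost K ((p : ℝ) ^ σ) m ∧ Odd (cardFactors m))).card : ℝ) ∧
    ((q : ℝ) - p) * (p : ℝ) ^ σ ≤
      ((between p q (fun m => Almost K ((p : ℝ) ^ σ) m ∧ Even (cardFactors m))).card : ℝ) := by
  classical
  obtain ⟨K, σ, hσ, hσ1, ⟨x1, hx1, h⟩, -⟩ := Short.short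
  obtain ⟨n1, hn1⟩ := brocard (K := K) hσ hσ1 (fun m => Odd (cardFactors m))
    (fun x hx => (h x hx).1)
  obtain ⟨n2, hn2⟩ := brocard (K := K) hσ hσ1 (fun m => Even (cardFactors m))
    (fun x hx => (h x hx).2)
  refine ⟨K, σ, hσ, max n1 n2, ?_⟩
  intro n hn p q hp hq
  have hnp : n ≤ p := by
    rw [hp]; exact (Nat.nth_strictMono Nat.infinite_setOfPred_prime).le_apply
  have hpq : p < q := by
    rw [hp, hq]; exact Nat.nth_strictMono Nat.infinite_setOfPred_prime (by omega)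
  have hq2 : q ≤ 2 * p := by rw [hp, hq]; exact nth_succ_le n
  obtain ⟨a1, S1, a2, a3⟩ := hn1 p ((le_max_left _ _).trans (hn.trans hnp)) q hpq hq2
  obtain ⟨b1, S2, b2, b3⟩ := hn2 p ((le_max_right _ _).trans (hn.trans hnp)) q hpq hq2
  exact ⟨fun y hy1 hy2 => ⟨a1 y hy1 hy2, b1 y hy1 hy2⟩, a3.trans (card_le_between a2),
    b3.trans (card_le_between b2)⟩

end Pool.Agent.Results.MP_739ba1_nt.AlmostPrimesBetweenPrimeSquares
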