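import Mathlib
import Pool.Agent.Brc.Fin

set_option autoImplicit false

/-!
# Parity of `Ω` at Cramér's scale below the squares of almost all primes
-/

namespace Pool.Agent.Results.MP_739ba1_nt.CramerScale

open Pool.Agent.Brc

/-- for every `s`, at least `k` integers `m` with `y - L < m < y` have `Ω(m) mod q ≠ s` -/
def Varies (q k : ℕ) (y L : ℝ) : Prop :=
  ∀ s : ℕ, k ≤ Set.ncard {m : ℕ | y - L < m ∧ (m : ℝ) < y ∧
    ArithmeticFunction.cardFactors m % q ≠ s}

/-- Let `q ≥ 2`, `k ≥ 1`, `η > 0`, `T ≥ 0` and `C = (5 k² / η + T)²`. For all large `X` and all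
`0 ≤ i ≤ j ≤ T log X`, all but at most `η X / log X` primes `p ≤ X` are such that for every `s` at
least `k` integers `m` in `((p + i)(p + j) - C (log p)², (p + i)(p + j))` have `Ω(m) mod q ≠ s`. -/
theorem result (q k : ℕ) (hq : 2 ≤ q) (hk : 1 ≤ k) (η T : ℝ) (hη : 0 < η) (hT : 0 ≤ T) :
    ∃ X0 : ℕ, ∀ X : ℕ, X0 ≤ X → ∀ i j : ℕ, i ≤ j → (j : ℝ) ≤ T * Real.log X →
      (Set.ncard {p : ℕ | p.Prime ∧ p ≤ X ∧
        ¬ Varies q k ((p + i) * (p + j)) ((5 * k ^ 2 / η + T) ^ 2 * Real.log p ^ 2)} : ℝ) ≤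
          η * X / Real.log X := by
  classical
  obtain ⟨X0, hX0⟩ := main q k hq hk η T hη hT
  refine ⟨X0, fun X hX i j hij hj => ?_⟩
  have h1 := hX0 X hX i j hij hj ((Finset.range (X + 1)).filter (fun p => p.Prime ∧
    ¬ Varies q k ((p + i) * (p + j)) ((5 * k ^ 2 / η + T) ^ 2 * Real.log p ^ 2))) (by
      intro p hp
      rw [Finset.mem_filter, Finset.mem_range] at hp
      refine ⟨by omega, hp.2.1, ?_⟩
      intro hr
      apply hp.2.2
      intro s
      refine (hr s).trans ?_
      rw [← Set.ncard_coe_finset]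
      apply Set.ncard_le_ncard
      · intro m hm
        rw [Finset.mem_coe, Finset.mem_filter, Finset.mem_range] at hm
        obtain ⟨a1, a2, a3⟩ := hm
        refine ⟨?_, ?_, a3⟩
        · push_cast at a2
          exact a2
        · exact_mod_cast a1
      · apply Set.Finite.subset (Finset.finite_toSet (Finset.range ((p + i) * (p + j))))
        intro m hm
        rw [Finset.mem_coe, Finset.mem_range]
        have := hm.2.1
        exact_mod_cast this)
  refine le_trans (le_of_eq ?_) h1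
  rw [← Set.ncard_coe_finset]
  congr 2
  ext p
  simp only [Set.mem_setOf_eq, Finset.coe_filter, Finset.mem_range]
  constructor
  · rintro ⟨a, b, c⟩
    exact ⟨by omega, a, c⟩
  · rintro ⟨a, b, c⟩
    exact ⟨b, by omega, c⟩

end Pool.Agent.Results.MP_739ba1_nt.CramerScale
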