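import Pool.Agent.MR.ZFinal

set_option autoImplicit false

/-!
# Numbers of prime factors modulo `k`, in residue classes, between squares of consecutive primes
-/

namespace Pool.Agent.Results.MP_739ba1_nt.OmegaResidueClasses

open Finset

theorem nth_succ_le (i : ℕ) : Nat.nth Nat.Prime (i + 1) ≤ 2 * Nat.nth Nat.Prime i := by
  have hp : (Nat.nth Nat.Prime i).Prime := Nat.prime_nth_prime i
  obtain ⟨q, hq, h1, h2⟩ := Nat.exists_prime_lt_and_le_two_mul _ hp.ne_zero
  refine le_trans ?_ h2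
  by_contra hcon
  rw [not_le] at hcon
  have hmono := Nat.nth_strictMono Nat.infinite_setOfPred_prime
  have hqe : Nat.nth Nat.Prime (Nat.count Nat.Prime q) = q := Nat.nth_count hq
  rw [← hqe] at h1 hcon
  have := hmono.lt_iff_lt.mp h1
  have := hmono.lt_iff_lt.mp hcon
  omega

/-- There is an absolute `A` such that for all `c > 0`, `k ≥ 2` and all coprime `a`, `W`: for all
large consecutive primes `p < p'`, every window of length `c p` between `p²` and `p'²` contains, for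
each `j`, at least `p / (log p)^A` integers `m ≡ a (mod W)` with `Ω(m) ≢ j (mod k)`. -/
theorem result : ∃ A : ℕ, ∀ c : ℝ, 0 < c → ∀ k : ℕ, 2 ≤ k → ∀ W a : ℕ, 0 < W → a.Coprime W →
    ∃ N : ℕ, ∀ i : ℕ, N ≤ i → ∀ y : ℝ, (Nat.nth Nat.Prime i : ℝ) ^ 2 ≤ y →
      y + c * (Nat.nth Nat.Prime i : ℝ) ≤ (Nat.nth Nat.Prime (i + 1) : ℝ) ^ 2 → ∀ j : ℕ,
      (Nat.nth Nat.Prime i : ℝ) / Real.log (Nat.nth Nat.Prime i : ℝ) ^ A ≤
        (Set.ncard {m : ℕ | y < m ∧ (m : ℝ) < y + c * (Nat.nth Nat.Prime i : ℝ) ∧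
          m ≡ a [MOD W] ∧ ¬ ArithmeticFunction.cardFactors m ≡ j [MOD k]} : ℝ) := by
  classical
  obtain ⟨A, hA⟩ := Pool.Agent.MR.omega_mod
  refine ⟨A + 1, fun c hc k hk W a hW ha => ?_⟩
  obtain ⟨X0, hX0⟩ := hA (c / 4) (by positivity) k hk W a hW ha
  have hlog : ∀ᶠ x : ℝ in Filter.atTop, (4 : ℝ) ^ A ≤ Real.log x :=
    Real.tendsto_log_atTop.eventually_ge_atTop _
  obtain ⟨Y0, hY0⟩ := Filter.eventually_atTop.mp
    ((hlog.and (Filter.eventually_ge_atTop X0)).and (Filter.eventually_ge_atTop 2))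
  refine ⟨⌈Y0⌉₊, fun i hi y hy1 hy2 j => ?_⟩
  set p : ℝ := (Nat.nth Nat.Prime i : ℝ) with hp
  set p' : ℝ := (Nat.nth Nat.Prime (i + 1) : ℝ) with hp'
  have hip : (i : ℝ) ≤ p := by
    rw [hp]
    exact_mod_cast (Nat.nth_strictMono Nat.infinite_setOfPred_prime).id_le i
  have hYp : Y0 ≤ p := by
    have h1 : Y0 ≤ (⌈Y0⌉₊ : ℝ) := Nat.le_ceil _
    have h2 : ((⌈Y0⌉₊ : ℕ) : ℝ) ≤ i := by exact_mod_cast hi
    linarith
  obtain ⟨⟨hl, hX⟩, hp2⟩ := hY0 p hYp
  have hpp : p' ≤ 2 * p := by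
    rw [hp, hp']
    exact_mod_cast nth_succ_le i
  have hp0 : 0 < p := by linarith
  have hy0 : 0 < y := by
    have : 0 < p ^ 2 := by positivity
    linarith
  have hy4 : y ≤ (2 * p) ^ 2 := by
    have h1 : p' ^ 2 ≤ (2 * p) ^ 2 := by
      apply pow_le_pow_left₀ _ hpp
      rw [hp']
      positivity
    have h2 : 0 < c * p := by positivity
    linarith
  have hsy1 : p ≤ √y := by
    rw [← Real.sqrt_sq hp0.le]
    exact Real.sqrt_le_sqrt hy1
  have hsy2 : √y ≤ 2 * p := by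
    rw [← Real.sqrt_sq (show (0 : ℝ) ≤ 2 * p by positivity)]
    exact Real.sqrt_le_sqrt hy4
  have hpy : p ≤ y := by nlinarith
  have hX' : X0 ≤ y := hX.trans hpy
  have hmain := hX0 y hX' j
  have hlp : 0 < Real.log p := lt_of_lt_of_le (by positivity) hl
  have hly : Real.log y ≤ 4 * Real.log p := by
    have h1 : Real.log y ≤ Real.log ((2 * p) ^ 2) := Real.log_le_log hy0 hy4
    have h2 : Real.log ((2 * p) ^ 2) ≤ Real.log (p ^ 4) := by
      apply Real.log_le_log (by positivity)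
      have h3 : 4 ≤ p ^ 2 := by nlinarith
      calc (2 * p) ^ 2 = 4 * p ^ 2 := by ring
        _ ≤ p ^ 2 * p ^ 2 := by gcongr
        _ = p ^ 4 := by ring
    rw [Real.log_pow p 4] at h2
    push_cast at h2
    linarith
  have hly0 : 0 < Real.log y := by
    have : Real.log p ≤ Real.log y := Real.log_le_log hp0 hpy
    linarith
  calc p / Real.log p ^ (A + 1) ≤ √y / Real.log y ^ A := by
        apply div_le_div₀ (Real.sqrt_nonneg _) hsy1 (by positivity)
        calc Real.log y ^ A ≤ (4 * Real.log p) ^ A := by gcongr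
          _ = 4 ^ A * Real.log p ^ A := by rw [mul_pow]
          _ ≤ Real.log p * Real.log p ^ A := by gcongr
          _ = Real.log p ^ (A + 1) := by ring
    _ ≤ _ := hmain
    _ ≤ _ := by
        have hfin : Set.Finite {m : ℕ | y < m ∧ (m : ℝ) < y + c * p ∧
            m ≡ a [MOD W] ∧ ¬ ArithmeticFunction.cardFactors m ≡ j [MOD k]} := by
          apply Set.Finite.subset (Set.finite_Icc 0 ⌊y + c * p⌋₊)
          intro m hm
          exact ⟨Nat.zero_le _, Nat.le_floor hm.2.1.le⟩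
        rw [← Set.ncard_coe_finset]
        have hsub := Set.ncard_le_ncard (s := (((Ioc ⌊y⌋₊ ⌊y + c / 4 * √y⌋₊).filter (fun n =>
            n ≡ a [MOD W] ∧ ¬ ArithmeticFunction.cardFactors n ≡ j [MOD k]) : Finset ℕ) : Set ℕ))
            (t := {m : ℕ | y < m ∧ (m : ℝ) < y + c * p ∧
            m ≡ a [MOD W] ∧ ¬ ArithmeticFunction.cardFactors m ≡ j [MOD k]}) ?_ hfin
        · exact_mod_cast hsub
        · intro n hn
          simp only [coe_filter, mem_Ioc, Set.mem_ofPred_eq] at hn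
          rw [Nat.floor_lt hy0.le, Nat.le_floor_iff (by positivity)] at hn
          refine ⟨hn.1.1, ?_, hn.2.1, hn.2.2⟩
          have h1 : c / 4 * √y ≤ c / 4 * (2 * p) := by gcongr
          have h2 : 0 < c * p := by positivity
          linarith [hn.1.2]

end Pool.Agent.Results.MP_739ba1_nt.OmegaResidueClasses
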